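import Mathlib
import Pool.Agent.Helper56.Mertens
import Pool.Agent.Helper56.Renewal
import Pool.Agent.Helper56.Part

set_option maxHeartbeats 4000000

open Set Filter Topology

namespace Pool.Agent.Results.MP_c6faf2_co.SupernormAsymp

open Helper56

/-- The supernorm of an integer partition: the product over the parts `k` (with multiplicity) of
the `k`-th prime `p_k` (`p_1 = 2`), which is `Nat.nth Nat.Prime (k - 1)`. -/
noncomputable def supernorm {n : ℕ} (l : Nat.Partition n) : ℕ :=
  (l.parts.map (fun k => Nat.nth Nat.Prime (k - 1))).prod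

/-- The sum of the reciprocals of the supernorms of all partitions of `n`. -/
noncomputable def What (n : ℕ) : ℝ := ∑ l : Nat.Partition n, 1 / (supernorm l : ℝ)

/-- `x_k = 1 / p_k` -/
noncomputable def xp (k : ℕ) : ℝ := (Nat.nth Nat.Prime (k - 1) : ℝ)⁻¹

theorem What_eq (n : ℕ) : What n = Wp xp n := by
  unfold What Wp wt supernorm xp
  apply Finset.sum_congr rfl
  intro l _
  rw [one_div, Nat.cast_multiset_prod, Multiset.map_map]
  rw [← Multiset.prod_map_inv]
  rfl

theorem xp_nonneg (k : ℕ) : 0 ≤ xp k := by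
  unfold xp; positivity

theorem nth_ge (k : ℕ) : (k:ℝ) + 2 ≤ (Nat.nth Nat.Prime k : ℝ) := by
  exact_mod_cast Nat.add_two_le_nth_prime k

theorem xp_le_half (k : ℕ) : xp k ≤ 1 / 2 := by
  unfold xp
  have h := nth_ge (k - 1)
  have h2 : (2:ℝ) ≤ (Nat.nth Nat.Prime (k - 1) : ℝ) := by
    have : (0:ℝ) ≤ ((k - 1 : ℕ) : ℝ) := Nat.cast_nonneg _
    linarith
  rw [one_div]
  exact inv_anti₀ (by norm_num) h2

theorem mul_xp_le {k : ℕ} (hk : 1 ≤ k) : (k:ℝ) * xp k ≤ 1 := by
  unfold xp
  have h := nth_ge (k - 1)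
  have h3 : ((k - 1 : ℕ) : ℝ) = (k:ℝ) - 1 := by
    push_cast [Nat.cast_sub hk]; ring
  rw [h3] at h
  have hk0 : (0:ℝ) < k := by exact_mod_cast hk
  rw [← div_eq_mul_inv, div_le_one (by linarith)]
  linarith

theorem sum_d_two_pow (N : ℕ) :
    ∑ d ∈ Finset.range N, (d:ℝ) / 2 ^ d = 2 - 2 * ((N:ℝ) + 1) / 2 ^ N := by
  induction N with
  | zero => simp
  | succ N ih =>
    rw [Finset.sum_range_succ, ih]
    push_cast
    rw [pow_succ]
    field_simp
    ring

theorem cm_bounds {m : ℕ} (hm : 1 ≤ m) :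
    (m:ℝ) * xp m ≤ cm xp m ∧ cm xp m ≤ (m:ℝ) * xp m + 8 / m := by
  have hm0 : (0:ℝ) < m := by exact_mod_cast hm
  have hdiv : cm xp m = (∑ k ∈ m.properDivisors, (k:ℝ) * xp k ^ (m / k)) + (m:ℝ) * xp m := by
    unfold cm
    rw [← Nat.insert_self_properDivisors (by omega : m ≠ 0),
      Finset.sum_insert Nat.self_notMem_properDivisors, Nat.div_self (by omega), pow_one]
    ring
  have hnn : 0 ≤ ∑ k ∈ m.properDivisors, (k:ℝ) * xp k ^ (m / k) :=
    Finset.sum_nonneg (fun k _ => mul_nonneg (Nat.cast_nonneg k) (pow_nonneg (xp_nonneg k) _))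
  have hle : ∑ k ∈ m.properDivisors, (k:ℝ) * xp k ^ (m / k) ≤ 8 / m := by
    have h1 : ∀ k ∈ m.properDivisors, (k:ℝ) * xp k ^ (m / k) ≤
        4 / m * (((m / k : ℕ) : ℝ) / 2 ^ (m / k)) := by
      intro k hk
      rw [Nat.mem_properDivisors] at hk
      obtain ⟨hkm, hlt⟩ := hk
      have hk1 : 1 ≤ k := Nat.pos_of_dvd_of_pos hkm hm
      have hk0 : (0:ℝ) < k := by exact_mod_cast hk1
      obtain ⟨d, rfl⟩ := hkm
      rw [Nat.mul_div_cancel_left _ (by omega)]
      have hd : 2 ≤ d := by
        by_contra hd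
        have : d = 0 ∨ d = 1 := by omega
        rcases this with rfl | rfl <;> omega
      obtain ⟨e, rfl⟩ : ∃ e, d = e + 2 := ⟨d - 2, by omega⟩
      have hx0 := xp_nonneg k
      have hx1 := mul_xp_le hk1
      have hx2 := xp_le_half k
      have hx3 : xp k ≤ 1 / k := by
        rw [le_div_iff₀ hk0]; linarith
      have e1 : (k:ℝ) * xp k ^ (e + 2) = ((k:ℝ) * xp k) * (xp k * xp k ^ e) := by ring
      rw [e1]
      calc ((k:ℝ) * xp k) * (xp k * xp k ^ e) ≤ 1 * ((1 / k) * (1 / 2) ^ e) := by
            gcongr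
        _ = _ := by
            push_cast
            have : ((e:ℝ) + 2) ≠ 0 := by positivity
            rw [one_div_pow, pow_add]
            field_simp
            norm_num
    calc ∑ k ∈ m.properDivisors, (k:ℝ) * xp k ^ (m / k)
        ≤ ∑ k ∈ m.properDivisors, 4 / m * (((m / k : ℕ) : ℝ) / 2 ^ (m / k)) :=
          Finset.sum_le_sum h1
      _ ≤ ∑ k ∈ m.divisors, 4 / m * (((m / k : ℕ) : ℝ) / 2 ^ (m / k)) := by
          apply Finset.sum_le_sum_of_subset_of_nonneg
          · exact Nat.properDivisors_subset_divisors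
          · intro i _ _; positivity
      _ = ∑ d ∈ m.divisors, 4 / m * ((d : ℝ) / 2 ^ d) :=
          Nat.sum_div_divisors m (fun d => 4 / m * ((d : ℝ) / 2 ^ d))
      _ ≤ ∑ d ∈ Finset.range (m + 1), 4 / m * ((d : ℝ) / 2 ^ d) := by
          apply Finset.sum_le_sum_of_subset_of_nonneg
          · intro d hd
            rw [Nat.mem_divisors] at hd
            rw [Finset.mem_range]
            have := Nat.le_of_dvd (by omega) hd.1
            omega
          · intro i _ _; positivity
      _ = 4 / m * (2 - 2 * (((m + 1 : ℕ):ℝ) + 1) / 2 ^ (m + 1)) := by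
          rw [← Finset.mul_sum, sum_d_two_pow]
      _ ≤ 4 / m * 2 := by
          apply mul_le_mul_of_nonneg_left _ (by positivity)
          have : 0 ≤ 2 * (((m + 1 : ℕ):ℝ) + 1) / 2 ^ (m + 1) := by positivity
          linarith
      _ = 8 / m := by ring
  rw [hdiv]
  constructor <;> linarith

theorem hlogN : Tendsto (fun n : ℕ => Real.log (n:ℝ)) atTop atTop :=
  Real.tendsto_log_atTop.comp tendsto_natCast_atTop_atTop

theorem mul_xp_log_tendsto : Tendsto (fun m : ℕ => ((m:ℝ) * xp m) * Real.log m) atTop (𝓝 1) := by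
  rw [← tendsto_add_atTop_iff_nat 1]
  refine mul_log_div_nth_tendsto.congr ?_
  intro n
  unfold xp
  rw [Nat.add_sub_cancel]
  push_cast
  field_simp

theorem mul_xp_tendsto : Tendsto (fun m : ℕ => ((m:ℝ) * xp m)) atTop (𝓝 0) := by
  have h1 := mul_xp_log_tendsto.mul hlogN.inv_tendsto_atTop
  rw [mul_zero] at h1
  refine h1.congr' ?_
  filter_upwards [hlogN.eventually_gt_atTop 0] with n hn
  simp only [Pi.inv_apply]
  field_simp

theorem cm_log_tendsto : Tendsto (fun m : ℕ => cm xp m * Real.log m) atTop (𝓝 1) := by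
  have h1 : Tendsto (fun m : ℕ => Real.log m / m) atTop (𝓝 0) :=
    (Real.isLittleO_log_id_atTop.tendsto_div_nhds_zero).comp tendsto_natCast_atTop_atTop
  have h2 : Tendsto (fun m : ℕ => ((m:ℝ) * xp m) * Real.log m + 8 * (Real.log m / m)) atTop
      (𝓝 1) := by
    have := mul_xp_log_tendsto.add (h1.const_mul 8)
    rwa [mul_zero, add_zero] at this
  refine tendsto_of_tendsto_of_tendsto_of_le_of_le' mul_xp_log_tendsto h2 ?_ ?_
  · filter_upwards [eventually_ge_atTop 1] with m hm
    have hl : 0 ≤ Real.log m := Real.log_natCast_nonneg m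
    exact mul_le_mul_of_nonneg_right (cm_bounds hm).1 hl
  · filter_upwards [eventually_ge_atTop 1] with m hm
    have hl : 0 ≤ Real.log m := Real.log_natCast_nonneg m
    have := mul_le_mul_of_nonneg_right (cm_bounds hm).2 hl
    calc _ ≤ _ := this
      _ = _ := by ring

theorem BK_tendsto : Tendsto (fun n : ℕ => BK xp n / n) atTop (𝓝 0) := by
  have h1 : Tendsto (fun k : ℕ => ((k + 1 : ℕ) : ℝ) * xp (k + 1)) atTop (𝓝 0) :=
    mul_xp_tendsto.comp (tendsto_add_atTop_nat 1)
  have h2 := h1.cesaro.const_mul 2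
  rw [mul_zero] at h2
  refine tendsto_of_tendsto_of_tendsto_of_le_of_le' tendsto_const_nhds h2 ?_ ?_
  · filter_upwards with n
    unfold BK
    apply div_nonneg _ (Nat.cast_nonneg n)
    apply Finset.sum_nonneg
    intro k _
    have h3 := xp_le_half (k + 1)
    have h4 := xp_nonneg (k + 1)
    apply div_nonneg _ (by linarith)
    exact mul_nonneg (Nat.cast_nonneg _) h4
  · filter_upwards with n
    unfold BK
    rw [div_eq_inv_mul, ← mul_assoc, mul_comm (2:ℝ), mul_assoc]
    apply mul_le_mul_of_nonneg_left _ (by positivity)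
    rw [Finset.mul_sum]
    apply Finset.sum_le_sum
    intro k _
    have h3 := xp_le_half (k + 1)
    have h4 := xp_nonneg (k + 1)
    rw [div_le_iff₀ (by linarith)]
    have h5 : (0:ℝ) ≤ ((k + 1 : ℕ) : ℝ) * xp (k + 1) := mul_nonneg (Nat.cast_nonneg _) h4
    nlinarith

theorem PK_tendsto : Tendsto (fun n : ℕ => PK xp n / Real.log n) atTop
    (𝓝 (Real.exp Real.eulerMascheroniConstant)) := by
  rw [← tendsto_add_atTop_iff_nat 1]
  refine mertens_prod_tendsto.congr ?_
  intro n
  unfold PK xp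
  simp only [Nat.add_sub_cancel, one_div]
  push_cast
  rfl

theorem sum_What_tendsto :
    Tendsto (fun n : ℕ => (∑ j ∈ Finset.range n, Wp xp j) / Real.log n) atTop
      (𝓝 (Real.exp Real.eulerMascheroniConstant)) := by
  have hS : ∀ n : ℕ, ∑ j ∈ Finset.range n, Wp xp j = SK xp n n := by
    intro n
    unfold SK
    apply Finset.sum_congr rfl
    intro j hj
    rw [Finset.mem_range] at hj
    rw [wK_eq xp (by omega)]
  have hlow : Tendsto (fun n : ℕ => PK xp n / Real.log n * (1 - BK xp n / n)) atTop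
      (𝓝 (Real.exp Real.eulerMascheroniConstant)) := by
    have := PK_tendsto.mul (BK_tendsto.const_sub 1)
    rwa [sub_zero, mul_one] at this
  refine tendsto_of_tendsto_of_tendsto_of_le_of_le' hlow PK_tendsto ?_ ?_
  · filter_upwards [eventually_gt_atTop 1] with n hn
    have hl : 0 < Real.log n := Real.log_pos (by exact_mod_cast hn)
    have h1 := PK_sub_SK_le xp_nonneg xp_le_half n (N := n) (by omega)
    rw [hS, div_mul_eq_mul_div]
    apply div_le_div_of_nonneg_right _ hl.le
    have : PK xp n * (1 - BK xp n / n) = PK xp n - PK xp n * BK xp n / n := by ring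
    rw [this]
    linarith
  · filter_upwards [eventually_gt_atTop 1] with n hn
    have hl : 0 < Real.log n := Real.log_pos (by exact_mod_cast hn)
    rw [hS]
    exact div_le_div_of_nonneg_right (SK_le xp_nonneg xp_le_half n n) hl.le

/-- **Q1 (affirmative answer).** The sum over all partitions of `n` of the reciprocal supernorm is
asymptotic to `e^γ / n`. -/
theorem result : Tendsto (fun n : ℕ => (n : ℝ) * What n) atTop
    (𝓝 (Real.exp Real.eulerMascheroniConstant)) := by
  have h := renewal_asymp (c := cm xp) (W := Wp xp) (cm_nonneg xp_nonneg) (Wp_nonneg xp_nonneg)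
    (Wp_rec xp) cm_log_tendsto sum_What_tendsto
  refine h.congr ?_
  intro n
  rw [What_eq]

end Pool.Agent.Results.MP_c6faf2_co.SupernormAsymp
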